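import Pool.Agent.N658.TP.Stm

/-!
# Project TP, task Hull: duality and Caratheodory
-/

set_option autoImplicit false

open scoped BigOperators ComplexConjugate Classical InnerProductSpace

noncomputable section

namespace Pool.Agent.N163.TP

open Pool.Agent.N658.TP

theorem hull : StmHull := by
  intro ι _ S x η η' hS h0 h1 hb
  set K : Set (EuclideanSpace ℝ ι) := closure (convexHull ℝ S) with hK
  have hKne : K.Nonempty := (hS.mono (subset_convexHull ℝ S)).closure
  have hKc : IsComplete K := isClosed_closure.isComplete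
  have hKv : Convex ℝ K := (convex_convexHull ℝ S).closure
  obtain ⟨Y, hY, hYm⟩ := exists_norm_eq_iInf_of_complete_convex hKne hKc hKv x
  have hin := (norm_eq_iInf_iff_real_inner_le_zero hKv hY).1 hYm
  have hSK : S ⊆ K := (subset_convexHull ℝ S).trans subset_closure
  have hdist : ‖Y - x‖ ≤ η := by
    by_contra hcon
    push Not at hcon
    have hpos : 0 < ‖Y - x‖ := lt_of_le_of_lt h0 hcon
    obtain ⟨s, hs, hs'⟩ := hb ((‖Y - x‖)⁻¹ • (Y - x)) (by
      rw [norm_smul, norm_inv, norm_norm, inv_mul_cancel₀ hpos.ne'])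
    have h2 := hin s (hSK hs)
    rw [real_inner_smul_left, real_inner_smul_left] at hs'
    have h3 : ⟪x - Y, s - Y⟫_ℝ = - (⟪Y - x, s⟫_ℝ - ⟪Y - x, Y⟫_ℝ) := by
      rw [← inner_sub_right, ← neg_sub Y x, inner_neg_left]
    have h4 : ⟪Y - x, Y⟫_ℝ = ⟪Y - x, x⟫_ℝ + ‖Y - x‖ ^ 2 := by
      rw [← real_inner_self_eq_norm_sq, ← inner_add_right]
      congr 1
      abel
    have h5 : ⟪Y - x, x⟫_ℝ + ‖Y - x‖ ^ 2 ≤ ⟪Y - x, s⟫_ℝ := by linarith
    have h6 : (‖Y - x‖)⁻¹ * (⟪Y - x, x⟫_ℝ + ‖Y - x‖ ^ 2) ≤ (‖Y - x‖)⁻¹ * ⟪Y - x, s⟫_ℝ :=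
      mul_le_mul_of_nonneg_left h5 (inv_nonneg.2 hpos.le)
    have h7 : (‖Y - x‖)⁻¹ * (⟪Y - x, x⟫_ℝ + ‖Y - x‖ ^ 2) =
        (‖Y - x‖)⁻¹ * ⟪Y - x, x⟫_ℝ + ‖Y - x‖ := by
      field_simp
    linarith
  obtain ⟨Z, hZ, hZd⟩ := Metric.mem_closure_iff.1 hY (η' - η) (by linarith)
  obtain ⟨κ, _, z, w, hz, hai, hw, hw1, hwz⟩ := eq_pos_convex_span_of_mem_convexHull hZ
  have hcard : Fintype.card κ ≤ Fintype.card ι + 1 := by
    have := hai.card_le_finrank_succ
    refine this.trans ?_
    have h8 := Submodule.finrank_le (vectorSpan ℝ (Set.range z))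
    rw [finrank_euclideanSpace] at h8
    omega
  have hle : Fintype.card κ ≤ Fintype.card (Fin (Fintype.card ι + 1)) := by
    rw [Fintype.card_fin]; exact hcard
  obtain ⟨e⟩ := Function.Embedding.nonempty_of_card_le hle
  obtain ⟨s0, hs0⟩ := hS
  refine ⟨fun i => if h : ∃ k, e k = i then w h.choose else 0,
    fun i => if h : ∃ k, e k = i then z h.choose else s0, ?_, ?_, ?_, ?_⟩
  · intro i
    dsimp only
    split_ifs with h
    · exact (hw _).le
    · exact le_rfl
  · rw [← hw1]
    symm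
    refine Finset.sum_of_injOn e e.injective.injOn (by intro _ _; simp) ?_ ?_
    · intro i _ hi
      have : ¬ ∃ k, e k = i := by
        rintro ⟨k, rfl⟩
        exact hi (Set.mem_image_of_mem e (by simp))
      simp only [dif_neg this]
    · intro k _
      have h : ∃ k', e k' = e k := ⟨k, rfl⟩
      simp only [dif_pos h]
      congr 1
      exact (e.injective h.choose_spec).symm
  · intro i
    dsimp only
    split_ifs with h
    · exact hz (Set.mem_range_self _)
    · exact hs0
  · have : (∑ i : Fin (Fintype.card ι + 1), (if h : ∃ k, e k = i then w h.choose else 0) •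
        (if h : ∃ k, e k = i then z h.choose else s0)) = Z := by
      rw [← hwz]
      symm
      refine Finset.sum_of_injOn e e.injective.injOn (by intro _ _; simp) ?_ ?_
      · intro i _ hi
        have : ¬ ∃ k, e k = i := by
          rintro ⟨k, rfl⟩
          exact hi (Set.mem_image_of_mem e (by simp))
        simp only [dif_neg this, zero_smul]
      · intro k _
        have h : ∃ k', e k' = e k := ⟨k, rfl⟩
        simp only [dif_pos h]
        have h9 := e.injective h.choose_spec
        rw [h9]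
    rw [this]
    calc ‖Z - x‖ = ‖(Y - x) - (Y - Z)‖ := by congr 1; abel
      _ ≤ ‖Y - x‖ + ‖Y - Z‖ := norm_sub_le _ _
      _ ≤ η + (η' - η) := by
        rw [dist_eq_norm] at hZd
        exact add_le_add hdist hZd.le
      _ = η' := by ring

end Pool.Agent.N163.TP
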