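import Pool.Agent.N658.TP.Stm

/-!
# Project TP, task Therm: translation of the low energy PEPS
-/

set_option autoImplicit false

open scoped BigOperators ComplexConjugate Classical InnerProductSpace

noncomputable section

namespace Pool.Agent.N163.TP

open Pool.Agent.N658.TP Pool.Agent.Y738.PE Pool.Agent.TH235

theorem val_box {m : ℕ} [NeZero m] (a : ZMod m) (k : ℕ) (hk : k < m) :
    (a + (k : ZMod m) - a).val = k := by
  rw [add_sub_cancel_left]
  exact ZMod.val_cast_of_lt hk

theorem back {m : ℕ} [NeZero m] (a b : ZMod m) : a + (((b - a).val : ℕ) : ZMod m) = b := by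
  rw [ZMod.natCast_zmod_val]
  ring

theorem term_put {d m r : ℕ} [NeZero m] (hr : r ≤ m) (B : BConf d r → BConf d r → ℂ)
    (u : PP.Site m) (s : Conf d m) (φ : Conf d m → ℂ) :
    ∑ t : Conf d m, PP.term (Matrix.of B) u s t * φ t =
      ∑ τ : BConf d r, B (box r s u) τ * φ (put s u τ) := by
  symm
  have hbp : ∀ τ : BConf d r, box r (put s u τ) u = τ := by
    intro τ
    funext p
    unfold box put
    have h1 : (u.1 + ((p.1 : ℕ) : ZMod m) - u.1).val = p.1 := val_box _ _ (by omega)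
    have h2 : (u.2 + ((p.2 : ℕ) : ZMod m) - u.2).val = p.2 := val_box _ _ (by omega)
    dsimp only
    rw [dif_pos ⟨by rw [h1]; exact p.1.2, by rw [h2]; exact p.2.2⟩]
    congr 1
    exact Prod.ext (Fin.ext h1) (Fin.ext h2)
  refine Finset.sum_of_injOn (fun τ => put s u τ) ?_ ?_ ?_ ?_
  · intro τ _ τ' _ h
    have h1 := congrArg (fun t => box r t u) h
    simp only [hbp] at h1
    exact h1
  · intro _ _
    simp
  · intro t _ ht
    have : PP.term (Matrix.of B) u s t = 0 := by
      unfold PP.term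
      rw [if_neg]
      intro hc
      apply ht
      refine ⟨box r t u, by simp, ?_⟩
      funext w
      show put s u (box r t u) w = t w
      unfold put
      split_ifs with hw
      · unfold box
        dsimp only
        congr 1
        exact Prod.ext (back _ _) (back _ _)
      · apply hc
        intro x hx
        apply hw
        rw [← hx]
        unfold PP.sh
        dsimp only
        rw [val_box _ _ (by omega), val_box _ _ (by omega)]
        exact ⟨x.1.2, x.2.2⟩
    rw [this, zero_mul]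
  · intro τ _
    have : PP.term (Matrix.of B) u s (put s u τ) = B (box r s u) τ := by
      unfold PP.term
      rw [if_pos]
      · have h1 : (fun x => put s u τ (PP.sh u x)) = τ := hbp τ
        rw [h1]
        rfl
      · intro v hv
        unfold put
        rw [dif_neg]
        intro hw
        refine hv (⟨_, hw.1⟩, ⟨_, hw.2⟩) ?_
        unfold PP.sh
        exact Prod.ext (back _ _) (back _ _)
    show B (box r s u) τ * φ (put s u τ) = PP.term (Matrix.of B) u s (put s u τ) * φ (put s u τ)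
    rw [this]

theorem ip_ham {d m r : ℕ} [NeZero m] (hr : r ≤ m) (B : BConf d r → BConf d r → ℂ)
    (φ : Conf d m → ℂ) :
    PP.ip φ (Matrix.mulVec (PP.ham (Matrix.of B) m) φ) = enS φ B := by
  unfold PP.ip enS expec
  rw [Finset.sum_comm]
  refine Finset.sum_congr rfl fun s _ => ?_
  have h1 : Matrix.mulVec (PP.ham (Matrix.of B) m) φ s =
      ∑ u : Site m, ∑ τ, B (box r s u) τ * φ (put s u τ) := by
    show ∑ t, PP.ham (Matrix.of B) m s t * φ t = _
    unfold PP.ham
    simp only [Matrix.sum_apply, Finset.sum_mul]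
    rw [Finset.sum_comm]
    exact Finset.sum_congr rfl fun u _ => term_put hr B u s φ
  rw [h1, Finset.mul_sum]
  refine Finset.sum_congr rfl fun u _ => ?_
  rw [Finset.mul_sum]
  refine Finset.sum_congr rfl fun τ _ => ?_
  ring

theorem contr_entry {S : Type} [Fintype S] (B : S → S → ℂ) (h : Contr B) (a b : S) :
    ‖B a b‖ ≤ 1 := by
  have h1 := h (Pi.single b 1)
  unfold nrm at h1
  have h2 : ∀ σ, (∑ τ, B σ τ * (Pi.single b (1 : ℂ) : S → ℂ) τ) = B σ b := by
    intro σ
    simp [Pi.single_apply]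
  simp only [h2] at h1
  have h3 : ∑ s, ‖(Pi.single b (1 : ℂ) : S → ℂ) s‖ ^ 2 = 1 := by
    rw [Finset.sum_eq_single b]
    · simp
    · intro c _ hc
      simp [Pi.single_apply, hc]
    · intro hb
      exact absurd (Finset.mem_univ b) hb
  rw [h3] at h1
  have h4 : ‖B a b‖ ^ 2 ≤ ∑ σ, ‖B σ b‖ ^ 2 :=
    Finset.single_le_sum (f := fun σ => ‖B σ b‖ ^ 2) (fun σ _ => by positivity)
      (Finset.mem_univ a)
  nlinarith [norm_nonneg (B a b)]

theorem sum_ext {ι : Type} [Fintype ι] [DecidableEq ι] {D f : ℕ} (h : D ≤ f) (G : (ι → Fin f) → ℂ)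
    (hG : ∀ g : ι → Fin f, (∃ i, ¬ (g i : ℕ) < D) → G g = 0) :
    ∑ g : ι → Fin f, G g = ∑ g : ι → Fin D, G (fun i => Fin.castLE h (g i)) := by
  symm
  refine Finset.sum_of_injOn (fun (g : ι → Fin D) => fun i => Fin.castLE h (g i)) ?_ ?_ ?_ ?_
  · intro g _ g' _ hgg
    funext i
    exact Fin.castLE_injective h (congrFun hgg i)
  · intro _ _
    simp
  · intro g _ hg
    apply hG
    by_contra hcon
    push Not at hcon
    apply hg
    refine ⟨fun i => ⟨g i, hcon i⟩, by simp, ?_⟩
    funext i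
    exact Fin.ext rfl
  · intro g _
    rfl

/-- extension of the tensors by zero -/
def padT {d m D : ℕ} (f : ℕ) (A : PP.Site m → Fin d → Fin D → Fin D → Fin D → Fin D → ℂ) :
    Site m → Tensor d f := fun v s a b c e =>
  if h : ((a : ℕ) < D ∧ (b : ℕ) < D) ∧ ((c : ℕ) < D ∧ (e : ℕ) < D) then
    A v s ⟨a, h.1.1⟩ ⟨b, h.1.2⟩ ⟨c, h.2.1⟩ ⟨e, h.2.2⟩ else 0

theorem pepsN_pad {d m D f : ℕ} [NeZero m] (h : D ≤ f)
    (A : PP.Site m → Fin d → Fin D → Fin D → Fin D → Fin D → ℂ) :
    pepsN (padT f A) = PP.contract A := by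
  funext s
  unfold pepsN PP.contract
  rw [sum_ext h]
  · refine Finset.sum_congr rfl fun hor _ => ?_
    rw [sum_ext h]
    · refine Finset.sum_congr rfl fun ver _ => ?_
      refine Finset.prod_congr rfl fun v _ => ?_
      unfold padT
      rw [dif_pos]
      · rfl
      · exact ⟨⟨(hor _).2, (hor _).2⟩, (ver _).2, (ver _).2⟩
    · rintro g ⟨i, hi⟩
      refine Finset.prod_eq_zero (Finset.mem_univ i) ?_
      unfold padT
      rw [dif_neg]
      exact fun hh => hi hh.2.2
  · rintro g ⟨i, hi⟩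
    refine Finset.sum_eq_zero fun ver _ => ?_
    refine Finset.prod_eq_zero (Finset.mem_univ i) ?_
    unfold padT
    rw [dif_neg]
    exact fun hh => hi hh.1.2

theorem therm (h : StmLow) : StmTherm := by
  intro d r hd hr
  obtain ⟨R', rfl⟩ : ∃ R', r = R' + 1 := ⟨r - 1, by omega⟩
  obtain ⟨C, hC, H⟩ := h d R' (((Fintype.card (BConf d (R' + 1)) : ℕ) : ℝ) *
    ((Fintype.card (BConf d (R' + 1)) : ℕ) : ℝ)) hd
  refine ⟨C, hC, ?_⟩
  intro m _ hm hrm β δ hβ hδ hδ1
  refine ⟨⌊Real.exp (C * (β + Real.log m + Real.log (1 / δ)))⌋₊,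
    Nat.floor_le (Real.exp_pos _).le, ?_⟩
  intro B hB hBc
  have hherm : (Matrix.of B : PP.BoxOp d (R' + 1)).IsHermitian := by
    refine Matrix.IsHermitian.ext fun i j => ?_
    show star (B j i) = B i j
    rw [hB i j]
    simp
  have hJ : PP.nJ (Matrix.of B : PP.BoxOp d (R' + 1)) ≤
      ((Fintype.card (BConf d (R' + 1)) : ℕ) : ℝ) *
        ((Fintype.card (BConf d (R' + 1)) : ℕ) : ℝ) := by
    unfold PP.nJ
    calc ∑ p : BConf d (R' + 1), ∑ q : BConf d (R' + 1), ‖Matrix.of B p q‖
        ≤ ∑ _p : BConf d (R' + 1), ∑ _q : BConf d (R' + 1), (1 : ℝ) :=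
          Finset.sum_le_sum fun p _ => Finset.sum_le_sum fun q _ => contr_entry B hBc p q
      _ = _ := by
        simp only [Finset.sum_const, Finset.card_univ, nsmul_eq_mul, mul_one]
  obtain ⟨D, ψ, hD, ⟨A, hA⟩, hn, hE⟩ := H m hm hrm β δ hβ hδ hδ1 (Matrix.of B) hherm hJ
  have hDf : D ≤ ⌊Real.exp (C * (β + Real.log m + Real.log (1 / δ)))⌋₊ := Nat.le_floor hD
  refine ⟨padT _ A, ?_, ?_⟩
  · rw [pepsN_pad hDf, ← hA]
    exact hn
  · intro φ hφ
    rw [pepsN_pad hDf, ← hA]
    have h1 := hE φ hφ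
    rw [ip_ham hrm B ψ, ip_ham hrm B φ] at h1
    exact h1

end Pool.Agent.N163.TP
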